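import Pool.Agent.V5helper51.MW.Stm

/-!
# Job T2 of project MW: type II sums in windows
-/

set_option autoImplicit false

namespace Pool.Agent.V5helper12.MW

open Finset
open Pool.Agent.H807R2.Dav (ee norm_ee ee_add ee_add_int ee_zero KK KK_nonneg KK_neg geo_bound vino)
open Pool.Agent.V5helper51.CM (Sf Bw)
open Pool.Agent.V5helper51.MW

/-- sums with an antitone weight -/
lemma anti_sum (a b : ℕ) (f : ℕ → ℕ) (hf : Antitone f) (Y : ℕ) (hY : ∀ m, f m ≤ Y) {M : ℝ} (hM : (b : ℝ) - a ≤ M)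
    (hM0 : 0 ≤ M) (θ : ℝ) : ‖∑ m ∈ Ico a b, (f m : ℂ) * ee (m * θ)‖ ≤ Y * KK M θ := by
  classical
  have h1 : ∀ m, (f m : ℂ) = ∑ y ∈ range Y, if y < f m then (1 : ℂ) else 0 := by
    intro m
    rw [← sum_filter, sum_const, nsmul_eq_mul, mul_one]
    congr 1
    have : (range Y).filter (fun y => y < f m) = range (f m) := by
      ext y
      have := hY m
      rw [mem_filter, mem_range, mem_range]
      omega
    rw [this, card_range]
  have h2 : ∑ m ∈ Ico a b, (f m : ℂ) * ee (m * θ) =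
      ∑ y ∈ range Y, ∑ m ∈ (Ico a b).filter (fun m => y < f m), ee (m * θ) := by
    simp only [h1, sum_mul, sum_filter]
    rw [sum_comm]
    refine sum_congr rfl fun y _ => sum_congr rfl fun m _ => ?_
    split_ifs <;> simp
  rw [h2]
  refine (norm_sum_le _ _).trans ?_
  refine (sum_le_sum (g := fun _ => KK M θ) fun y _ => ?_).trans ?_
  · have hex : ∃ c, b ≤ c ∨ f c ≤ y := ⟨b, Or.inl le_rfl⟩
    obtain ⟨c, hc⟩ : ∃ c, c = Nat.find hex := ⟨_, rfl⟩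
    have hcb : c ≤ b := by
      rw [hc]
      exact Nat.find_le (Or.inl le_rfl)
    have h3 : (Ico a b).filter (fun m => y < f m) = Ico a c := by
      ext m
      rw [mem_filter, mem_Ico, mem_Ico, hc, Nat.lt_find_iff]
      constructor
      · rintro ⟨⟨h4, h5⟩, h6⟩
        refine ⟨h4, fun m' hm' h7 => ?_⟩
        rcases h7 with h7 | h7
        · omega
        · have := hf hm'
          omega
      · rintro ⟨h4, h5⟩
        have h6 := h5 m le_rfl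
        push Not at h6
        exact ⟨⟨h4, h6.1⟩, h6.2⟩
    rw [h3]
    rcases le_total a c with h | h
    · apply geo_bound a c h
      have : (c : ℝ) ≤ b := by exact_mod_cast hcb
      linarith
    · rw [Ico_eq_empty (by omega)]
      simpa using KK_nonneg hM0 θ
  · rw [sum_const, card_range, nsmul_eq_mul]

/-- the distance -/
def dk (k k' : ℕ) : ℕ := (k - k') + (k' - k)

/-- the weight in the window -/
noncomputable def ww (N Y m k x : ℕ) : ℂ := if m * k ≤ N ∧ m * k ≤ x ∧ x < m * k + Y then 1 else 0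

lemma ww_sum {N Y m k k' : ℕ} :
    ∑ x ∈ range (N + Y), ww N Y m k x * ww N Y m k' x =
      ((if m * k ≤ N ∧ m * k' ≤ N then Y - m * dk k k' else 0 : ℕ) : ℂ) := by
  have h1 : ∀ x, ww N Y m k x * ww N Y m k' x = if (m * k ≤ N ∧ m * k' ≤ N) ∧
      (m * k ≤ x ∧ x < m * k + Y ∧ m * k' ≤ x ∧ x < m * k' + Y) then 1 else 0 := by
    intro x
    unfold ww
    by_cases c1 : m * k ≤ N ∧ m * k ≤ x ∧ x < m * k + Y
    · by_cases c2 : m * k' ≤ N ∧ m * k' ≤ x ∧ x < m * k' + Y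
      · rw [if_pos c1, if_pos c2, if_pos (by tauto), mul_one]
      · rw [if_neg c2, mul_zero, if_neg (by tauto)]
    · rw [if_neg c1, zero_mul, if_neg (by tauto)]
  simp only [h1]
  split_ifs with h
  · simp only [h, true_and]
    rw [← sum_filter, sum_const, nsmul_eq_mul, mul_one]
    congr 1
    rcases le_total k k' with hk | hk
    · have h2 : m * k ≤ m * k' := Nat.mul_le_mul_left _ hk
      have h3 : (range (N + Y)).filter (fun x => m * k ≤ x ∧ x < m * k + Y ∧ m * k' ≤ x ∧ x < m * k' + Y) =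
          Ico (m * k') (m * k + Y) := by
        ext x
        rw [mem_filter, mem_range, mem_Ico]
        omega
      rw [h3, Nat.card_Ico]
      have h4 : m * dk k k' = m * k' - m * k := by
        unfold dk
        rw [Nat.sub_eq_zero_of_le hk, zero_add, Nat.mul_sub]
      omega
    · have h2 : m * k' ≤ m * k := Nat.mul_le_mul_left _ hk
      have h3 : (range (N + Y)).filter (fun x => m * k ≤ x ∧ x < m * k + Y ∧ m * k' ≤ x ∧ x < m * k' + Y) =
          Ico (m * k) (m * k' + Y) := by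
        ext x
        rw [mem_filter, mem_range, mem_Ico]
        omega
      rw [h3, Nat.card_Ico]
      have h4 : m * dk k k' = m * k - m * k' := by
        unfold dk
        rw [Nat.sub_eq_zero_of_le hk, add_zero, Nat.mul_sub]
      omega
  · simp [h]

lemma dk_comm (k k' : ℕ) : dk k k' = dk k' k := by
  unfold dk
  omega

lemma dk_cast (k k' : ℕ) : (dk k k' : ℝ) = |(k : ℝ) - k'| := by
  unfold dk
  rcases le_total k k' with h | h
  · rw [Nat.sub_eq_zero_of_le h, zero_add, Nat.cast_sub h, abs_sub_comm, abs_of_nonneg]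
    have : (k : ℝ) ≤ k' := by exact_mod_cast h
    linarith
  · rw [Nat.sub_eq_zero_of_le h, add_zero, Nat.cast_sub h, abs_of_nonneg]
    have : (k' : ℝ) ≤ k := by exact_mod_cast h
    linarith

lemma KK_dk (M γ : ℝ) (k k' : ℕ) : KK M (((k : ℝ) - k') * γ) = KK M (dk k k' * γ) := by
  rw [dk_cast]
  rcases abs_cases ((k : ℝ) - k') with ⟨h, _⟩ | ⟨h, _⟩
  · rw [h]
  · rw [h, ← KK_neg]
    congr 1
    ring

lemma conj_ee (x : ℝ) : (starRingEnd ℂ) (ee x) = ee (-x) := by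
  unfold ee
  rw [← Complex.exp_conj]
  congr 1
  simp only [map_mul, Complex.conj_I, Complex.conj_ofReal]
  have : (starRingEnd ℂ) 2 = 2 := Complex.conj_ofNat 2
  rw [this]
  push_cast
  ring

lemma ww_conj (N Y m k x : ℕ) : (starRingEnd ℂ) (ww N Y m k x) = ww N Y m k x := by
  unfold ww
  split_ifs <;> simp

/-- the inner sum -/
noncomputable def IS (β : ℕ → ℂ) (γ : ℝ) (N Y K m x : ℕ) : ℂ :=
  ∑ k ∈ Icc 1 K, ww N Y m k x * (β k * ee (m * k * γ))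

/-- the correlation -/
noncomputable def ZZ (γ : ℝ) (N M Y k k' : ℕ) : ℂ := ∑ m ∈ Ico M (2 * M),
  ((if m * k ≤ N ∧ m * k' ≤ N then Y - m * dk k k' else 0 : ℕ) : ℂ) * ee (m * (((k : ℝ) - k') * γ))

lemma ZZ_le (γ : ℝ) {N M Y k k' : ℕ} : ‖ZZ γ N M Y k k'‖ ≤ if M * dk k k' < Y then Y * KK M (dk k k' * γ) else 0 := by
  split_ifs with h
  · rw [← KK_dk]
    unfold ZZ
    apply anti_sum M (2 * M) (fun m => if m * k ≤ N ∧ m * k' ≤ N then Y - m * dk k k' else 0)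
    · intro m m' hm
      have h1 : m * k ≤ m' * k := Nat.mul_le_mul_right _ hm
      have h2 : m * k' ≤ m' * k' := Nat.mul_le_mul_right _ hm
      have h3 : m * dk k k' ≤ m' * dk k k' := Nat.mul_le_mul_right _ hm
      show (if m' * k ≤ N ∧ m' * k' ≤ N then Y - m' * dk k k' else 0) ≤
        if m * k ≤ N ∧ m * k' ≤ N then Y - m * dk k k' else 0
      split_ifs <;> omega
    · intro m
      split_ifs <;> omega
    · push_cast
      linarith
    · positivity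
  · have : ZZ γ N M Y k k' = 0 := by
      unfold ZZ
      apply sum_eq_zero
      intro m hm
      rw [mem_Ico] at hm
      have h1 : M * dk k k' ≤ m * dk k k' := Nat.mul_le_mul_right _ hm.1
      have h2 : (if m * k ≤ N ∧ m * k' ≤ N then Y - m * dk k k' else 0) = 0 := by
        split_ifs <;> omega
      rw [h2]
      simp
    rw [this, norm_zero]

/-- the square, opened -/
lemma open_sq (β : ℕ → ℂ) (γ : ℝ) (N M Y K : ℕ) :
    ((∑ m ∈ Ico M (2 * M), ∑ x ∈ range (N + Y), ‖IS β γ N Y K m x‖ ^ 2 : ℝ) : ℂ) =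
      ∑ k ∈ Icc 1 K, ∑ k' ∈ Icc 1 K, β k * (starRingEnd ℂ) (β k') * ZZ γ N M Y k k' := by
  have h1 : ∀ m x, ((‖IS β γ N Y K m x‖ ^ 2 : ℝ) : ℂ) = ∑ k ∈ Icc 1 K, ∑ k' ∈ Icc 1 K,
      β k * (starRingEnd ℂ) (β k') * (ee (m * (((k : ℝ) - k') * γ)) * (ww N Y m k x * ww N Y m k' x)) := by
    intro m x
    have h2 : ((‖IS β γ N Y K m x‖ ^ 2 : ℝ) : ℂ) = IS β γ N Y K m x * (starRingEnd ℂ) (IS β γ N Y K m x) := by
      rw [Complex.mul_conj, Complex.normSq_eq_norm_sq]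
    rw [h2]
    unfold IS
    rw [map_sum, sum_mul_sum]
    refine sum_congr rfl fun k _ => sum_congr rfl fun k' _ => ?_
    rw [map_mul, map_mul, conj_ee, ww_conj]
    have h3 : ee (m * (((k : ℝ) - k') * γ)) = ee (m * k * γ) * ee (-(m * k' * γ)) := by
      rw [← ee_add]
      congr 1
      ring
    rw [h3]
    ring
  push_cast at h1 ⊢
  simp only [h1]
  unfold ZZ
  -- swap the sums
  rw [show ∑ m ∈ Ico M (2 * M), ∑ x ∈ range (N + Y), ∑ k ∈ Icc 1 K, ∑ k' ∈ Icc 1 K,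
      β k * (starRingEnd ℂ) (β k') * (ee (m * (((k : ℝ) - k') * γ)) * (ww N Y m k x * ww N Y m k' x)) =
      ∑ k ∈ Icc 1 K, ∑ k' ∈ Icc 1 K, ∑ m ∈ Ico M (2 * M), ∑ x ∈ range (N + Y),
      β k * (starRingEnd ℂ) (β k') * (ee (m * (((k : ℝ) - k') * γ)) * (ww N Y m k x * ww N Y m k' x)) from ?_]
  · refine sum_congr rfl fun k _ => sum_congr rfl fun k' _ => ?_
    rw [mul_sum]
    refine sum_congr rfl fun m _ => ?_
    rw [← ww_sum, sum_mul, mul_sum]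
    refine sum_congr rfl fun x _ => ?_
    ring
  · calc ∑ m ∈ Ico M (2 * M), ∑ x ∈ range (N + Y), ∑ k ∈ Icc 1 K, ∑ k' ∈ Icc 1 K, _ =
        ∑ m ∈ Ico M (2 * M), ∑ k ∈ Icc 1 K, ∑ x ∈ range (N + Y), ∑ k' ∈ Icc 1 K, _ := sum_congr rfl fun m _ => sum_comm
      _ = ∑ k ∈ Icc 1 K, ∑ m ∈ Ico M (2 * M), ∑ x ∈ range (N + Y), ∑ k' ∈ Icc 1 K, _ := sum_comm
      _ = ∑ k ∈ Icc 1 K, ∑ m ∈ Ico M (2 * M), ∑ k' ∈ Icc 1 K, ∑ x ∈ range (N + Y), _ :=
        sum_congr rfl fun k _ => sum_congr rfl fun m _ => sum_comm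
      _ = ∑ k ∈ Icc 1 K, ∑ k' ∈ Icc 1 K, ∑ m ∈ Ico M (2 * M), ∑ x ∈ range (N + Y), _ :=
        sum_congr rfl fun k _ => sum_comm

/-- a row of the correlations -/
lemma row_le (γ : ℝ) {M Y K k : ℕ} (hM : 1 ≤ M) :
    ∑ k' ∈ Icc 1 K, (if M * dk k k' < Y then Y * KK M (dk k k' * γ) else 0) ≤
      2 * (Y * ∑ r ∈ range (Y / M + 1), KK M (0 + r * γ)) := by
  classical
  have hK0 : ∀ r : ℕ, 0 ≤ KK M (0 + r * γ) := fun r => KK_nonneg (Nat.cast_nonneg _) _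
  have hY0 : (0 : ℝ) ≤ Y := Nat.cast_nonneg _
  have key : ∀ A : Finset ℕ, Set.InjOn (fun k' => dk k k') A →
      ∑ k' ∈ A, (if M * dk k k' < Y then (Y : ℝ) * KK M (dk k k' * γ) else 0) ≤
        Y * ∑ r ∈ range (Y / M + 1), KK M (0 + r * γ) := by
    intro A hA
    rw [← sum_filter, ← mul_sum]
    refine mul_le_mul_of_nonneg_left ?_ hY0
    have h1 : ∑ k' ∈ A.filter (fun k' => M * dk k k' < Y), KK M (dk k k' * γ) =
        ∑ r ∈ (A.filter (fun k' => M * dk k k' < Y)).image (fun k' => dk k k'), KK M (0 + r * γ) := by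
      rw [sum_image]
      · exact sum_congr rfl fun _ _ => by rw [zero_add]
      · intro a ha b hb hab
        rw [mem_coe, mem_filter] at ha hb
        exact hA ha.1 hb.1 hab
    rw [h1]
    apply sum_le_sum_of_subset_of_nonneg
    · intro r hr
      rw [mem_image] at hr
      obtain ⟨k', hk', rfl⟩ := hr
      rw [mem_filter] at hk'
      rw [mem_range]
      have : dk k k' ≤ Y / M := by
        rw [Nat.le_div_iff_mul_le (by omega)]
        nlinarith [hk'.2]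
      omega
    · intro r _ _
      exact hK0 r
  have h2 : ∑ k' ∈ Icc 1 K, (if M * dk k k' < Y then (Y : ℝ) * KK M (dk k k' * γ) else 0) =
      ∑ k' ∈ (Icc 1 K).filter (fun k' => k' ≤ k), (if M * dk k k' < Y then (Y : ℝ) * KK M (dk k k' * γ) else 0) +
      ∑ k' ∈ (Icc 1 K).filter (fun k' => ¬ k' ≤ k), (if M * dk k k' < Y then (Y : ℝ) * KK M (dk k k' * γ) else 0) :=
    (sum_filter_add_sum_filter_not _ _ _).symm
  rw [h2, two_mul]
  apply add_le_add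
  · apply key
    intro a ha b hb hab
    rw [mem_coe, mem_filter] at ha hb
    simp only [dk] at hab
    omega
  · apply key
    intro a ha b hb hab
    rw [mem_coe, mem_filter] at ha hb
    simp only [dk] at hab
    omega

/-- the window of a convolution -/
lemma Bw_cv {α β : ℕ → ℂ} {M N Y K : ℕ} (hM : 1 ≤ M) (hK : K = N / M)
    (hα : ∀ m, α m ≠ 0 → M ≤ m ∧ m < 2 * M) (γ : ℝ) (x : ℕ) :
    Bw (cv α β) N Y γ x = ∑ m ∈ Ico M (2 * M), α m * IS β γ N Y K m x := by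
  classical
  have hR : ∑ m ∈ Ico M (2 * M), α m * IS β γ N Y K m x =
      ∑ p ∈ ((Ico M (2 * M)) ×ˢ (Icc 1 K)).filter (fun p => p.1 * p.2 ≤ N ∧ p.1 * p.2 ≤ x ∧ x < p.1 * p.2 + Y),
        α p.1 * β p.2 * ee (p.1 * p.2 * γ) := by
    rw [sum_filter, sum_product]
    refine sum_congr rfl fun m _ => ?_
    unfold IS ww
    rw [mul_sum]
    refine sum_congr rfl fun k _ => ?_
    split_ifs
    · ring
    · simp
  have hL : Bw (cv α β) N Y γ x =
      ∑ s ∈ (((Icc 1 N).filter (fun l => l ≤ x ∧ x < l + Y)).sigma (fun l => l.divisors)).filter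
        (fun s => M ≤ s.2 ∧ s.2 < 2 * M), α s.2 * β (s.1 / s.2) * ee (s.1 * γ) := by
    unfold Bw cv
    simp only [sum_mul]
    rw [sum_sigma']
    symm
    apply sum_filter_of_ne
    intro s _ hs
    apply hα
    intro h0
    apply hs
    rw [h0, zero_mul, zero_mul]
  rw [hR, hL]
  refine sum_nbij' (fun s => (s.2, s.1 / s.2)) (fun p => ⟨p.1 * p.2, p.1⟩) ?_ ?_ ?_ ?_ ?_
  · rintro ⟨l, d⟩ hs
    simp only [mem_filter, mem_sigma, mem_Icc, Nat.mem_divisors] at hs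
    obtain ⟨⟨⟨⟨h1, h2⟩, h3, h4⟩, ⟨h5, h6⟩⟩, h7, h8⟩ := hs
    obtain ⟨e, rfl⟩ := h5
    have hd : 0 < d := by omega
    simp only [mem_filter, mem_product, mem_Ico, mem_Icc]
    rw [Nat.mul_div_cancel_left _ hd]
    refine ⟨⟨⟨h7, h8⟩, ?_, ?_⟩, h2, h3, h4⟩
    · rcases Nat.eq_zero_or_pos e with h | h
      · rw [h, mul_zero] at h1
        omega
      · exact h
    · rw [hK, Nat.le_div_iff_mul_le (by omega)]
      calc e * M ≤ e * d := Nat.mul_le_mul_left _ h7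
        _ = d * e := mul_comm _ _
        _ ≤ N := h2
  · rintro ⟨m, k⟩ hp
    simp only [mem_filter, mem_product, mem_Ico, mem_Icc] at hp
    obtain ⟨⟨⟨h1, h2⟩, h3, h4⟩, h5, h6, h7⟩ := hp
    simp only [mem_filter, mem_sigma, mem_Icc, Nat.mem_divisors]
    have : 0 < m * k := Nat.mul_pos (by omega) (by omega)
    exact ⟨⟨⟨⟨by omega, h5⟩, h6, h7⟩, ⟨dvd_mul_right _ _, by omega⟩⟩, h1, h2⟩
  · rintro ⟨l, d⟩ hs
    simp only [mem_filter, mem_sigma, mem_Icc, Nat.mem_divisors] at hs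
    obtain ⟨⟨⟨⟨h1, h2⟩, h3, h4⟩, ⟨h5, h6⟩⟩, h7, h8⟩ := hs
    simp only
    rw [Nat.mul_div_cancel' h5]
  · rintro ⟨m, k⟩ hp
    simp only [mem_filter, mem_product, mem_Ico, mem_Icc] at hp
    obtain ⟨⟨⟨h1, h2⟩, h3, h4⟩, h5, h6, h7⟩ := hp
    simp only
    rw [Nat.mul_div_cancel_left _ (by omega)]
  · rintro ⟨l, d⟩ hs
    simp only [mem_filter, mem_sigma, mem_Icc, Nat.mem_divisors] at hs
    obtain ⟨⟨⟨⟨h1, h2⟩, h3, h4⟩, ⟨h5, h6⟩⟩, h7, h8⟩ := hs
    simp only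
    congr 2
    have h9 : ((l / d : ℕ) : ℝ) * d = l := by exact_mod_cast Nat.div_mul_cancel h5
    rw [← h9]
    ring

/-- the mean square in terms of the distances of the multiples of `γ` from the integers -/
lemma Wn_le {α β : ℕ → ℂ} {M N Y : ℕ} (hM : 1 ≤ M) (hα : ∀ m, α m ≠ 0 → M ≤ m ∧ m < 2 * M) (γ : ℝ) :
    Wn (cv α β) N Y γ ≤ (∑ m ∈ Ico M (2 * M), ‖α m‖ ^ 2) * ((∑ k ∈ Icc 1 (N / M), ‖β k‖ ^ 2) *
      (2 * (Y * ∑ r ∈ range (Y / M + 1), KK M (0 + r * γ)))) := by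
  classical
  obtain ⟨K, hK⟩ : ∃ K, K = N / M := ⟨_, rfl⟩
  obtain ⟨R, hR⟩ : ∃ R, R = 2 * (Y * ∑ r ∈ range (Y / M + 1), KK M (0 + r * γ)) := ⟨_, rfl⟩
  rw [← hK, ← hR]
  have hA0 : 0 ≤ ∑ m ∈ Ico M (2 * M), ‖α m‖ ^ 2 := sum_nonneg fun _ _ => sq_nonneg _
  have h1 : Wn (cv α β) N Y γ ≤ (∑ m ∈ Ico M (2 * M), ‖α m‖ ^ 2) *
      ∑ m ∈ Ico M (2 * M), ∑ x ∈ range (N + Y), ‖IS β γ N Y K m x‖ ^ 2 := by
    unfold Wn
    rw [sum_comm, mul_sum]
    refine sum_le_sum fun x _ => ?_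
    rw [Bw_cv hM hK hα γ x]
    have h2 : ‖∑ m ∈ Ico M (2 * M), α m * IS β γ N Y K m x‖ ≤
        ∑ m ∈ Ico M (2 * M), ‖α m‖ * ‖IS β γ N Y K m x‖ := by
      refine (norm_sum_le _ _).trans (le_of_eq ?_)
      exact sum_congr rfl fun m _ => norm_mul _ _
    calc ‖∑ m ∈ Ico M (2 * M), α m * IS β γ N Y K m x‖ ^ 2 ≤
        (∑ m ∈ Ico M (2 * M), ‖α m‖ * ‖IS β γ N Y K m x‖) ^ 2 := pow_le_pow_left₀ (norm_nonneg _) h2 2
      _ ≤ _ := sum_mul_sq_le_sq_mul_sq _ _ _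
  refine h1.trans (mul_le_mul_of_nonneg_left ?_ hA0)
  have h3 : ∑ m ∈ Ico M (2 * M), ∑ x ∈ range (N + Y), ‖IS β γ N Y K m x‖ ^ 2 =
      ‖((∑ m ∈ Ico M (2 * M), ∑ x ∈ range (N + Y), ‖IS β γ N Y K m x‖ ^ 2 : ℝ) : ℂ)‖ := by
    rw [Complex.norm_real, Real.norm_of_nonneg]
    exact sum_nonneg fun _ _ => sum_nonneg fun _ _ => sq_nonneg _
  rw [h3, open_sq]
  obtain ⟨g, hg⟩ : ∃ g : ℕ → ℕ → ℝ, g = fun k k' => if M * dk k k' < Y then (Y : ℝ) * KK M (dk k k' * γ) else 0 := ⟨_, rfl⟩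
  have hg0 : ∀ k k', 0 ≤ g k k' := by
    intro k k'
    rw [hg]
    simp only
    split_ifs
    · exact mul_nonneg (Nat.cast_nonneg _) (KK_nonneg (Nat.cast_nonneg _) _)
    · exact le_rfl
  have hgc : ∀ k k', g k k' = g k' k := by
    intro k k'
    rw [hg]
    simp only
    rw [dk_comm]
  have hrow : ∀ k, ∑ k' ∈ Icc 1 K, g k k' ≤ R := by
    intro k
    rw [hR, hg]
    exact row_le γ hM
  have h4 : ‖∑ k ∈ Icc 1 K, ∑ k' ∈ Icc 1 K, β k * (starRingEnd ℂ) (β k') * ZZ γ N M Y k k'‖ ≤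
      ∑ k ∈ Icc 1 K, ∑ k' ∈ Icc 1 K, (‖β k‖ ^ 2 + ‖β k'‖ ^ 2) / 2 * g k k' := by
    refine (norm_sum_le _ _).trans (sum_le_sum fun k _ => ?_)
    refine (norm_sum_le _ _).trans (sum_le_sum fun k' _ => ?_)
    rw [norm_mul, norm_mul, RCLike.norm_conj]
    have h5 : ‖ZZ γ N M Y k k'‖ ≤ g k k' := by
      rw [hg]
      exact ZZ_le γ
    apply mul_le_mul _ h5 (norm_nonneg _) (by positivity)
    nlinarith [sq_nonneg (‖β k‖ - ‖β k'‖)]
  refine h4.trans ?_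
  have h6 : ∑ k ∈ Icc 1 K, ∑ k' ∈ Icc 1 K, (‖β k‖ ^ 2 + ‖β k'‖ ^ 2) / 2 * g k k' =
      ∑ k ∈ Icc 1 K, ∑ k' ∈ Icc 1 K, ‖β k‖ ^ 2 / 2 * g k k' +
      ∑ k ∈ Icc 1 K, ∑ k' ∈ Icc 1 K, ‖β k'‖ ^ 2 / 2 * g k k' := by
    rw [← sum_add_distrib]
    refine sum_congr rfl fun k _ => ?_
    rw [← sum_add_distrib]
    refine sum_congr rfl fun k' _ => ?_
    ring
  have h7 : ∑ k ∈ Icc 1 K, ∑ k' ∈ Icc 1 K, ‖β k'‖ ^ 2 / 2 * g k k' =
      ∑ k ∈ Icc 1 K, ∑ k' ∈ Icc 1 K, ‖β k‖ ^ 2 / 2 * g k k' := by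
    rw [sum_comm]
    refine sum_congr rfl fun k _ => sum_congr rfl fun k' _ => ?_
    rw [hgc]
  have h8 : ∑ k ∈ Icc 1 K, ∑ k' ∈ Icc 1 K, ‖β k‖ ^ 2 / 2 * g k k' ≤ (∑ k ∈ Icc 1 K, ‖β k‖ ^ 2) * R / 2 := by
    rw [sum_mul, sum_div]
    refine sum_le_sum fun k _ => ?_
    rw [← mul_sum]
    have := mul_le_mul_of_nonneg_left (hrow k) (by positivity : 0 ≤ ‖β k‖ ^ 2 / 2)
    linarith
  rw [h6, h7]
  linarith

/-- **Job T2**: type II sums in windows -/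
theorem t2 : S_T2 := by
  refine ⟨400, by norm_num, fun N M Y Q γ Sa Sb α β hN hQ hQM hMQ hYN hmin hα hSa hSb hSb0 => ?_⟩
  have hMr : (1 : ℝ) ≤ M := hQ.trans hQM
  have hM1 : 1 ≤ M := by exact_mod_cast hMr
  have hM0 : (0 : ℝ) < M := by linarith
  have hQ0 : (0 : ℝ) < Q := by linarith
  have hYr : (1 : ℝ) ≤ Y := by nlinarith
  have hY0 : (0 : ℝ) < Y := by linarith
  have hNr : (2 : ℝ) ≤ N := by exact_mod_cast hN
  have hYNr : (Y : ℝ) ≤ N := by exact_mod_cast hYN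
  have hlog : 0.69 ≤ Real.log N := by
    have h1 := Real.log_two_gt_d9
    have h2 := Real.log_le_log (by norm_num) hNr
    linarith
  -- Dirichlet
  obtain ⟨n, hn⟩ : ∃ n, n = ⌊(Y : ℝ) / Q⌋₊ := ⟨_, rfl⟩
  have hMYQ : (M : ℝ) ≤ Y / Q := by rwa [le_div_iff₀ hQ0]
  have hn1 : 1 ≤ n := by
    rw [hn, Nat.one_le_floor_iff]
    linarith
  have hnle : (n : ℝ) ≤ Y / Q := by
    rw [hn]
    exact Nat.floor_le (by positivity)
  have hnlt : (Y : ℝ) / Q < n + 1 := by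
    rw [hn]
    exact Nat.lt_floor_add_one _
  obtain ⟨ρ, hρ1, hρ2⟩ := Real.exists_rat_abs_sub_le_and_den_le γ (n := n) (by omega)
  obtain ⟨q, hq⟩ : ∃ q : ℕ, q = ρ.den := ⟨_, rfl⟩
  have hρe : (ρ : ℝ) = (ρ.num : ℝ) / q := by
    rw [hq]
    exact Rat.cast_def ρ
  rw [← hq, hρe] at hρ1
  rw [← hq] at hρ2
  have hq1 : 1 ≤ q := by rw [hq]; exact ρ.den_pos
  have hqr : (1 : ℝ) ≤ q := by exact_mod_cast hq1
  have hq0 : (0 : ℝ) < q := by linarith
  have hn0 : (0 : ℝ) < (n : ℝ) + 1 := by positivity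
  have hqn : (q : ℝ) ≤ n := by exact_mod_cast hρ2
  have hqQ : Q < q := by
    by_contra hcon
    push Not at hcon
    have h1 := hmin q hq1 hcon ρ.num
    have h2 : |(q : ℝ) * γ - ρ.num| = q * |γ - ρ.num / q| := by
      rw [← abs_of_pos hq0, ← abs_mul, abs_of_pos hq0]
      congr 1
      field_simp
    have h3 : (q : ℝ) * |γ - ρ.num / q| ≤ 1 / (n + 1) := by
      calc (q : ℝ) * |γ - ρ.num / q| ≤ q * (1 / ((n + 1) * q)) := mul_le_mul_of_nonneg_left hρ1 hq0.le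
        _ = 1 / (n + 1) := by field_simp
    rw [h2] at h1
    have h4 : (Y : ℝ) * (q * |γ - ρ.num / q|) ≤ Y * (1 / (n + 1)) := mul_le_mul_of_nonneg_left h3 hY0.le
    have h5 : (Y : ℝ) * (1 / (n + 1)) ≤ Q := by
      rw [mul_one_div, div_le_iff₀ hn0]
      rw [div_lt_iff₀ hQ0] at hnlt
      linarith
    linarith
  have hcop : IsCoprime ρ.num (q : ℤ) := by
    rw [Int.isCoprime_iff_gcd_eq_one, hq]
    have := ρ.reduced
    simpa [Int.gcd] using this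
  have hγ : |γ - ρ.num / q| ≤ 1 / (q : ℝ) ^ 2 := by
    refine hρ1.trans ?_
    apply one_div_le_one_div_of_le (by positivity)
    nlinarith
  have hv := vino hq1 hcop hγ (M := (M : ℝ)) hM0.le 0 (Y / M + 1)
  have hlogq : Real.log q ≤ Real.log N := by
    apply Real.log_le_log hq0
    have : (Y : ℝ) / Q ≤ Y := div_le_self hY0.le hQ
    linarith
  have hlogq0 : 0 ≤ Real.log q := Real.log_nonneg hqr
  obtain ⟨T, hT⟩ : ∃ T, T = (Y : ℝ) / Q := ⟨_, rfl⟩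
  have hT0 : 0 < T := by rw [hT]; positivity
  have hqT : (q : ℝ) ≤ T := by rw [hT]; linarith
  have hMT : (M : ℝ) ≤ T := by rw [hT]; exact hMYQ
  have hYM : (Y : ℝ) / M ≤ T := by
    rw [hT]
    exact div_le_div_of_nonneg_left hY0.le hQ0 hQM
  have hYq : (Y : ℝ) / q ≤ T := by
    rw [hT]
    exact div_le_div_of_nonneg_left hY0.le hQ0 hqQ.le
  have hv2 : (((Y / M + 1 : ℕ) : ℝ) / q + 1) * (39 * M + 3 * q * (1 + Real.log q)) ≤ 200 * (T * Real.log N) := by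
    have h1 : ((Y / M + 1 : ℕ) : ℝ) ≤ 2 * (Y / M) := by
      have h2 : ((Y / M : ℕ) : ℝ) ≤ (Y : ℝ) / M := Nat.cast_div_le
      have h3 : (1 : ℝ) ≤ (Y : ℝ) / M := by
        rw [le_div_iff₀ hM0]
        nlinarith
      push_cast
      linarith
    have hB : 0 ≤ 39 * (M : ℝ) + 3 * q * (1 + Real.log q) := by positivity
    have h4 : (((Y / M + 1 : ℕ) : ℝ) / q + 1) ≤ 2 * (Y / M) / q + 1 := by
      gcongr
    refine (mul_le_mul_of_nonneg_right h4 hB).trans ?_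
    have h5 : (2 * ((Y : ℝ) / M) / q + 1) * (39 * M + 3 * q * (1 + Real.log q)) =
        78 * (Y / q) + 39 * M + 6 * (Y / M) * (1 + Real.log q) + 3 * q * (1 + Real.log q) := by
      field_simp
      ring
    rw [h5]
    have h6 : 6 * ((Y : ℝ) / M) * (1 + Real.log q) ≤ 6 * T * (1 + Real.log N) := by gcongr
    have h7 : 3 * (q : ℝ) * (1 + Real.log q) ≤ 3 * T * (1 + Real.log N) := by gcongr
    have h8 : T * 0.69 ≤ T * Real.log N := mul_le_mul_of_nonneg_left hlog hT0.le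
    nlinarith
  have hS : ∑ r ∈ range (Y / M + 1), KK M (0 + r * γ) ≤ 200 * (T * Real.log N) := hv.trans hv2
  have hSa' : ∑ m ∈ Ico M (2 * M), ‖α m‖ ^ 2 ≤ Sa * M := by
    refine le_trans ?_ hSa
    apply sum_le_sum_of_subset_of_nonneg
    · intro m hm
      rw [mem_Ico] at hm
      rw [mem_range]
      omega
    · intro _ _ _
      exact sq_nonneg _
  have hSaM : 0 ≤ Sa * M := le_trans (sum_nonneg fun _ _ => sq_nonneg _) hSa'
  have hS0 : 0 ≤ ∑ r ∈ range (Y / M + 1), KK M (0 + r * γ) := sum_nonneg fun _ _ => KK_nonneg hM0.le _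
  refine (Wn_le hM1 hα γ).trans ?_
  calc (∑ m ∈ Ico M (2 * M), ‖α m‖ ^ 2) * ((∑ k ∈ Icc 1 (N / M), ‖β k‖ ^ 2) *
      (2 * (Y * ∑ r ∈ range (Y / M + 1), KK M (0 + r * γ)))) ≤
      (Sa * M) * ((Sb * (N / M)) * (2 * (Y * (200 * (T * Real.log N))))) := by
        have hb0 : 0 ≤ ∑ k ∈ Icc 1 (N / M), ‖β k‖ ^ 2 := sum_nonneg fun _ _ => sq_nonneg _
        gcongr
    _ = 400 * Sa * Sb * (N * (Y : ℝ) ^ 2) * Real.log N / Q := by
        rw [hT]
        field_simp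
        ring

end Pool.Agent.V5helper12.MW
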